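import Mathlib

set_option autoImplicit false

namespace Pool.Agent.H81

/-- One-dimensional lemma: if `φ` has nonnegative second derivative wherever `φ > r`, then
`max r φ` is convex. -/
theorem convexOn_max_of_deriv2_nonneg {φ φ' φ'' : ℝ → ℝ} {r : ℝ}
    (h1 : ∀ s, HasDerivAt φ (φ' s) s) (h2 : ∀ s, HasDerivAt φ' (φ'' s) s)
    (h3 : ∀ s, r < φ s → 0 ≤ φ'' s) :
    ConvexOn ℝ Set.univ (fun s => max r (φ s)) := by
  have hcont : Continuous φ := continuous_iff_continuousAt.2 fun s => (h1 s).continuousAt
  have hderiv : deriv φ = φ' := funext fun s => (h1 s).deriv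
  have hderiv2 : deriv φ' = φ'' := funext fun s => (h2 s).deriv
  refine LinearOrder.convexOn_of_lt convex_univ ?_
  intro x _ y _ hxy a b ha hb hab
  simp only [smul_eq_mul]
  set z := a * x + b * y with hz
  have hxz : x < z := by
    rw [hz]
    have : a = 1 - b := by linarith
    subst this
    nlinarith
  have hzy : z < y := by
    rw [hz]
    have : b = 1 - a := by linarith
    subst this
    nlinarith
  rcases le_or_gt (φ z) r with hzr | hzr
  · rw [max_eq_left hzr]
    have e1 : r ≤ max r (φ x) := le_max_left _ _
    have e2 : r ≤ max r (φ y) := le_max_left _ _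
    calc r = a * r + b * r := by rw [← add_mul, hab, one_mul]
      _ ≤ a * max r (φ x) + b * max r (φ y) :=
        add_le_add (mul_le_mul_of_nonneg_left e1 ha.le) (mul_le_mul_of_nonneg_left e2 hb.le)
  · rw [max_eq_right hzr.le]
    -- chord
    set gx := max r (φ x) with hgx
    set gy := max r (φ y) with hgy
    have hgx' : r ≤ gx := le_max_left _ _
    have hgy' : r ≤ gy := le_max_left _ _
    have hyx : 0 < y - x := by linarith
    -- the affine function through (x, gx), (y, gy)
    let L : ℝ → ℝ := fun s => ((y - s) * gx + (s - x) * gy) / (y - x)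
    have hLr : ∀ s, x ≤ s → s ≤ y → r ≤ L s := by
      intro s hs1 hs2
      show r ≤ ((y - s) * gx + (s - x) * gy) / (y - x)
      rw [le_div_iff₀ hyx]
      nlinarith
    -- left end point
    obtain ⟨l, hl1, hl2, hl3, hl4⟩ : ∃ l, x ≤ l ∧ l < z ∧ φ l ≤ L l ∧
        ∀ s, l < s → s ≤ z → r < φ s := by
      by_cases hS : ({s | s ∈ Set.Icc x z ∧ φ s ≤ r} : Set ℝ).Nonempty
      · have hcomp : IsCompact {s | s ∈ Set.Icc x z ∧ φ s ≤ r} := by
          have : {s | s ∈ Set.Icc x z ∧ φ s ≤ r} = Set.Icc x z ∩ {s | φ s ≤ r} := rfl
          rw [this]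
          exact isCompact_Icc.inter_right (isClosed_le hcont continuous_const)
        have hmem := hcomp.sSup_mem hS
        set l := sSup {s | s ∈ Set.Icc x z ∧ φ s ≤ r} with hl
        refine ⟨l, hmem.1.1, ?_, ?_, ?_⟩
        · rcases lt_or_eq_of_le hmem.1.2 with h | h
          · exact h
          · exfalso
            rw [h] at hmem
            exact absurd hmem.2 (not_le.2 hzr)
        · exact hmem.2.trans (hLr l hmem.1.1 (hmem.1.2.trans hzy.le))
        · intro s hs1 hs2
          by_contra hcon
          have : s ≤ l := le_csSup hcomp.bddAbove ⟨⟨hmem.1.1.trans hs1.le, hs2⟩, not_lt.1 hcon⟩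
          linarith
      · refine ⟨x, le_rfl, hxz, ?_, ?_⟩
        · have : L x = gx := by
            show ((y - x) * gx + (x - x) * gy) / (y - x) = gx
            field_simp
            ring
          rw [this]
          exact le_max_right _ _
        · intro s hs1 hs2
          by_contra hcon
          exact hS ⟨s, ⟨hs1.le, hs2⟩, not_lt.1 hcon⟩
    obtain ⟨u, hu1, hu2, hu3, hu4⟩ : ∃ u, u ≤ y ∧ z < u ∧ φ u ≤ L u ∧
        ∀ s, z ≤ s → s < u → r < φ s := by
      by_cases hS : ({s | s ∈ Set.Icc z y ∧ φ s ≤ r} : Set ℝ).Nonempty
      · have hcomp : IsCompact {s | s ∈ Set.Icc z y ∧ φ s ≤ r} := by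
          have : {s | s ∈ Set.Icc z y ∧ φ s ≤ r} = Set.Icc z y ∩ {s | φ s ≤ r} := rfl
          rw [this]
          exact isCompact_Icc.inter_right (isClosed_le hcont continuous_const)
        have hmem := hcomp.sInf_mem hS
        set u := sInf {s | s ∈ Set.Icc z y ∧ φ s ≤ r} with hu
        refine ⟨u, hmem.1.2, ?_, ?_, ?_⟩
        · rcases lt_or_eq_of_le hmem.1.1 with h | h
          · exact h
          · exfalso
            rw [← h] at hmem
            exact absurd hmem.2 (not_le.2 hzr)
        · exact hmem.2.trans (hLr u (hxz.le.trans hmem.1.1) hmem.1.2)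
        · intro s hs1 hs2
          by_contra hcon
          have : u ≤ s := csInf_le hcomp.bddBelow ⟨⟨hs1, hs2.le.trans hmem.1.2⟩, not_lt.1 hcon⟩
          linarith
      · refine ⟨y, le_rfl, hzy, ?_, ?_⟩
        · have : L y = gy := by
            show ((y - y) * gx + (y - x) * gy) / (y - x) = gy
            field_simp
            ring
          rw [this]
          exact le_max_right _ _
        · intro s hs1 hs2
          by_contra hcon
          exact hS ⟨s, ⟨hs1, hs2.le⟩, not_lt.1 hcon⟩
    have hconv : ConvexOn ℝ (Set.Icc l u) φ := by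
      refine convexOn_of_deriv2_nonneg (convex_Icc l u) hcont.continuousOn ?_ ?_ ?_
      · exact fun s _ => (h1 s).differentiableAt.differentiableWithinAt
      · rw [hderiv]
        exact fun s _ => (h2 s).differentiableAt.differentiableWithinAt
      · intro s hs
        rw [interior_Icc] at hs
        have : deriv^[2] φ s = φ'' s := by
          simp only [Function.iterate_succ, Function.iterate_zero, Function.comp_apply, id_eq,
            hderiv, hderiv2]
        rw [this]
        apply h3
        rcases le_or_gt s z with h | h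
        · exact hl4 s hs.1 h
        · exact hu4 s h.le hs.2
    have hlu : 0 < u - l := by linarith
    have hkey := hconv.2 (Set.left_mem_Icc.2 (by linarith)) (Set.right_mem_Icc.2 (by linarith))
      (show 0 ≤ (u - z) / (u - l) from div_nonneg (by linarith) hlu.le)
      (show 0 ≤ (z - l) / (u - l) from div_nonneg (by linarith) hlu.le)
      (show (u - z) / (u - l) + (z - l) / (u - l) = 1 by
        rw [← add_div]; rw [div_eq_one_iff_eq hlu.ne']; ring)
    simp only [smul_eq_mul] at hkey
    have hzz : (u - z) / (u - l) * l + (z - l) / (u - l) * u = z := by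
      field_simp
      ring
    rw [hzz] at hkey
    have hLz : (u - z) / (u - l) * L l + (z - l) / (u - l) * L u = L z := by
      show (u - z) / (u - l) * (((y - l) * gx + (l - x) * gy) / (y - x)) +
        (z - l) / (u - l) * (((y - u) * gx + (u - x) * gy) / (y - x)) =
          ((y - z) * gx + (z - x) * gy) / (y - x)
      field_simp
      ring
    have hLz' : L z = a * gx + b * gy := by
      show ((y - z) * gx + (z - x) * gy) / (y - x) = a * gx + b * gy
      rw [div_eq_iff hyx.ne', hz]
      have : a = 1 - b := by linarith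
      subst this
      ring
    rw [← hLz', ← hLz]
    refine hkey.trans ?_
    have k1 : 0 ≤ (u - z) / (u - l) := div_nonneg (by linarith) hlu.le
    have k2 : 0 ≤ (z - l) / (u - l) := div_nonneg (by linarith) hlu.le
    gcongr

end Pool.Agent.H81
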